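import Pool.Agent.H860V.Aut

/-!
# Rational constraints are nice for orientable quadratic equations in a free group

`A` is a finite alphabet, `Ω` a finite set of variables, `FreeGroup A` the free group; `W` is a word
over `(A ∪ Ω)` and the formal inverses, in which every variable `X` occurs at most once as `X` and at
most once as `X⁻¹`.  A solution is a map `σ : Ω → FreeGroup A` whose extension to
`FreeGroup (A ⊕ Ω)`, fixing the letters of `A`, sends `W` to `1`; the constraints `L X` are arbitrary
rational subsets of the free group.  If the equation has infinitely many constrained solutions, then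
it has constrained solutions of arbitrarily large exponent of periodicity.
-/

set_option autoImplicit false

namespace Pool.Agent.Results.MP_874169_lc.OrientableNice

open Pool.Agent.H860Q Pool.Agent.H860V

/-- The homomorphism `F(A ∪ Ω) → F(A)` that fixes the letters of `A` and sends `X` to `σ X`. -/
def ext {A Ω : Type} (σ : Ω → FreeGroup A) : FreeGroup (A ⊕ Ω) →* FreeGroup A :=
  FreeGroup.lift (Sum.elim FreeGroup.of σ)

/-- A subset of the free group is rational if it is the set of the elements represented by the words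
of a regular language over `A ∪ A⁻¹`; `(a, true)` stands for `a`, `(a, false)` for `a⁻¹`. -/
def Rational {A : Type} (L : Set (FreeGroup A)) : Prop :=
  ∃ R : Language (A × Bool), R.IsRegular ∧ L = {g | ∃ w ∈ R, FreeGroup.mk w = g}

/-- The number of occurrences of `X` (for `e = true`) or of `X⁻¹` (for `e = false`) in `W`. -/
def occurrences {A Ω : Type} [DecidableEq A] [DecidableEq Ω] (W : List ((A ⊕ Ω) × Bool)) (X : Ω)
    (e : Bool) : ℕ :=
  W.countP (fun s => decide (s = (Sum.inr X, e)))

/-- `σ` is a solution of `W = 1` that satisfies the constraints `L`. -/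
def IsSolution {A Ω : Type} (W : List ((A ⊕ Ω) × Bool)) (L : Ω → Set (FreeGroup A))
    (σ : Ω → FreeGroup A) : Prop :=
  ext σ (FreeGroup.mk W) = 1 ∧ ∀ X, σ X ∈ L X

/-- The exponent of periodicity of `σ` is at least `κ`: the power `c^κ` of a nonempty word `c` is a
factor of the reduced word of some `σ X`. -/
def ExpAtLeast {A Ω : Type} [DecidableEq A] (σ : Ω → FreeGroup A) (κ : ℕ) : Prop :=
  ∃ X, ∃ c : List (A × Bool), c ≠ [] ∧ (List.replicate κ c).flatten <:+: (σ X).toWord

variable {A Ω : Type} [Fintype A] [DecidableEq A] [Fintype Ω] [DecidableEq Ω]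

theorem result (W : List ((A ⊕ Ω) × Bool)) (horient : ∀ X e, occurrences W X e ≤ 1)
    (L : Ω → Set (FreeGroup A)) (hrat : ∀ X, Rational (L X))
    (hinf : {σ | IsSolution W L σ}.Infinite) :
    ∀ κ : ℕ, ∃ σ, IsSolution W L σ ∧ ExpAtLeast σ κ := by
  intro κ
  choose R hR hL using hrat
  choose Q hQf D hD using hR
  have hfin : ∀ X, Finite (Set (Q X)) := fun X => by have := hQf X; infer_instance
  let φ := imor (Mor.prod (tmor (fun X => Set (Q X)) (rst Q D)) (Mor.prod
    (tmor (ι := Unit) (fun _ => Bool) nst) (tmor (ι := Unit)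
      (fun _ => Option (Option (A × Bool))) dst)))
  have hmem : ∀ X (w : Wd A), FreeGroup.IsReduced w → (FreeGroup.mk w ∈ L X ↔
      ∃ q ∈ w.foldl (detStep (D X)) (detStart (D X)), q ∈ (D X).accept) := by
    intro X w hw
    rw [hL, benois (D X) w (FreeGroup.isReduced_iff_reduce_eq.1 hw)]
    constructor
    · rintro ⟨u, hu, e⟩
      rw [← hD X] at hu
      exact ⟨_, ⟨u, e, rfl⟩, hu⟩
    · rintro ⟨q, ⟨u, e, rfl⟩, hq⟩
      refine ⟨u, ?_, e⟩
      rw [← hD X]; exact hq
  let M := TM (fun X => Set (Q X)) × TM (fun _ : Unit => Bool) ×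
    TM (fun _ : Unit => Option (Option (A × Bool)))
  let Acc : Set (La Ω W.length → M × Mᵐᵒᵖ) := {μ | (∀ z, (μ z).1.2.1.f () true = true) ∧
    ∀ X, (μ (Sum.inl X)).1.2.2.f () (some none) ≠ none ∧
      ∃ q ∈ (μ (Sum.inl X)).1.1.f X (detStart (D X)), q ∈ (D X).accept}
  have hacc : ∀ v : La Ω W.length → Wd (Option A), (fun z => φ.f (v z)) ∈ Acc ↔
      (∀ z, (v z).foldl (nst ()) true = true) ∧
      ∀ X, (v (Sum.inl X)).foldl (dst ()) (some none) ≠ none ∧
      ∃ q ∈ (v (Sum.inl X)).foldl (rst Q D X) (detStart (D X)), q ∈ (D X).accept :=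
    fun v => Iff.rfl
  have hnst : ∀ w : Wd A, (emb w).foldl (nst ()) true = true := by
    intro w
    rw [nst_fold]
    refine ⟨rfl, ?_⟩
    intro c hc
    simp only [emb, List.mem_map] at hc
    obtain ⟨e, -, rfl⟩ := hc
    simp
  have hF1 : Finite (TM (fun X => Set (Q X))) := inferInstance
  have hF2 : Finite (TM (fun _ : Unit => Bool)) := inferInstance
  have hF3 : Finite (TM (fun _ : Unit => Option (Option (A × Bool)))) := inferInstance
  have hF4 : Finite (TM (fun X => Set (Q X)) × TM (fun _ : Unit => Bool) ×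
    TM (fun _ : Unit => Option (Option (A × Bool)))) := inferInstance
  have hF5 : Finite (TM (fun X => Set (Q X)) × TM (fun _ : Unit => Bool) ×
    TM (fun _ : Unit => Option (Option (A × Bool))))ᵐᵒᵖ :=
    Finite.of_equiv _ MulOpposite.opEquiv
  obtain ⟨v, h1, h2, x, c, hc, hx⟩ := pump_of_infinite φ (S0 W.length W)
    (cnt_of_K1 (k1_S0 W le_rfl horient)) (Or.inl (k1_S0 W le_rfl horient)) Acc (by
    intro hfin
    apply hinf
    refine Set.Finite.subset (hfin.image (fun v X => FreeGroup.mk (unemb (v (Sum.inl X))))) ?_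
    rintro σ ⟨hs, hl⟩
    obtain ⟨u, hu, huX⟩ := exists_u W σ hs
    refine ⟨fun z => emb (u z), ⟨hu, (hacc _).2 ⟨fun z => hnst _, fun X => ⟨?_, ?_⟩⟩⟩, ?_⟩
    · rw [dst_fold, huX]; exact FreeGroup.isReduced_toWord
    · rw [rst_fold, ← hmem X _ (by rw [huX]; exact FreeGroup.isReduced_toWord), huX,
        FreeGroup.mk_toWord]
      exact hl X
    · funext X
      show FreeGroup.mk (unemb (emb (u (Sum.inl X)))) = σ X
      rw [unemb_emb, huX, FreeGroup.mk_toWord]) (1 + W.length * (κ + 2) + (κ + 2))
  obtain ⟨a1, a2⟩ := (hacc v).1 h2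
  have hv : v = fun z => emb (unemb (v z)) := by
    funext z
    exact (emb_unemb _ (((nst_fold (v z) true).1 (a1 z)).2)).symm
  have hred : ∀ X, FreeGroup.IsReduced (unemb (v (Sum.inl X))) := by
    intro X
    rw [← dst_fold, ← congrFun hv (Sum.inl X)]
    exact (a2 X).1
  have hsolv : Solves (fun z => emb (unemb (v z))) (S0 W.length W) := by
    rw [← hv]; exact h1
  obtain ⟨X, c', hc', hX⟩ := exists_pow W (fun z => unemb (v z)) hsolv κ x c hc (by
    rw [← congrFun hv x]; exact hx)
  refine ⟨fun X => FreeGroup.mk (unemb (v (Sum.inl X))), ⟨sol_of_u W _ hsolv, fun X => ?_⟩,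
    X, c', hc', ?_⟩
  · rw [hmem X _ (hred X), ← rst_fold Q D, ← congrFun hv (Sum.inl X)]
    exact (a2 X).2
  · show pw c' κ <:+: (FreeGroup.mk (unemb (v (Sum.inl X)))).toWord
    rw [FreeGroup.toWord_mk, FreeGroup.isReduced_iff_reduce_eq.1 (hred X)]
    exact hX

end Pool.Agent.Results.MP_874169_lc.OrientableNice
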