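import Pool.Agent.H860Q.Fin1

/-!
# Rational constraints by positive words are nice for quadratic equations `U = V`

`A` is a finite alphabet, `Ω` a finite set of variables, `FreeGroup A` the free group; `U` and `V` are
words over `A ∪ Ω` in which every variable occurs at most twice altogether.  A solution is a map
`σ : Ω → FreeGroup A` whose extension to the words, fixing the letters of `A`, satisfies
`σ(U) σ(V)⁻¹ = 1`.  The constraints `L X` are arbitrary rational subsets of the free group that
consist of elements of the free monoid `A*`.  If the equation has infinitely many constrained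
solutions, then it has constrained solutions of arbitrarily large exponent of periodicity.
-/

set_option autoImplicit false

namespace Pool.Agent.Results.MP_874169_lc.PositiveConstraints

open Pool.Agent.H860Q

/-- The homomorphism `F(A ∪ Ω) → F(A)` that fixes the letters of `A` and sends `X` to `σ X`. -/
def ext {A Ω : Type} (σ : Ω → FreeGroup A) : FreeGroup (A ⊕ Ω) →* FreeGroup A :=
  FreeGroup.lift (Sum.elim FreeGroup.of σ)

/-- The element of the free group given by a positive word. -/
def posWord {B : Type} (w : List B) : FreeGroup B := (w.map FreeGroup.of).prod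

/-- A subset of the free group is rational if it is the set of the elements represented by the words
of a regular language over `A ∪ A⁻¹`; `(a, true)` stands for `a`, `(a, false)` for `a⁻¹`. -/
def Rational {A : Type} (L : Set (FreeGroup A)) : Prop :=
  ∃ R : Language (A × Bool), R.IsRegular ∧ L = {g | ∃ w ∈ R, FreeGroup.mk w = g}

/-- `σ` is a solution of `U V⁻¹ = 1` that satisfies the constraints `L`. -/
def IsSolution {A Ω : Type} (U V : List (A ⊕ Ω)) (L : Ω → Set (FreeGroup A))
    (σ : Ω → FreeGroup A) : Prop :=
  ext σ (posWord U * (posWord V)⁻¹) = 1 ∧ ∀ X, σ X ∈ L X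

/-- The exponent of periodicity of `σ` is at least `κ`: the power `c^κ` of a nonempty word `c` is a
factor of the reduced word of some `σ X`. -/
def ExpAtLeast {A Ω : Type} [DecidableEq A] (σ : Ω → FreeGroup A) (κ : ℕ) : Prop :=
  ∃ X, ∃ c : List (A × Bool), c ≠ [] ∧ (List.replicate κ c).flatten <:+: (σ X).toWord

variable {A Ω : Type} [Fintype A] [DecidableEq A] [Fintype Ω] [DecidableEq Ω]

theorem posWord_eq (w : List A) : posWord w = FreeGroup.mk (pl w) := by
  induction w with
  | nil => rfl
  | cons a w ih =>
    have : posWord (a :: w) = FreeGroup.of a * posWord w := by simp [posWord]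
    rw [this, ih]
    show FreeGroup.mk [(a, true)] * _ = _
    rw [FreeGroup.mul_mk]; rfl

theorem ext_posWord (v : Ω → List A) (U : List (A ⊕ Ω)) :
    ext (fun X => posWord (v X)) (posWord U) = posWord (ev v U) := by
  induction U with
  | nil => simp [posWord]
  | cons s U ih =>
    have : posWord (s :: U) = FreeGroup.of s * posWord U := by simp [posWord]
    rw [this, map_mul, ih, ev_cons]
    have h2 : posWord (evs v s ++ ev v U) = posWord (evs v s) * posWord (ev v U) := by
      simp [posWord]
    rw [h2]
    congr 1
    rcases s with a | X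
    · simp [ext, posWord]
    · simp [ext, posWord]

theorem posWord_injective : Function.Injective (posWord : List A → FreeGroup A) := by
  intro x y h
  rw [posWord_eq, posWord_eq] at h
  have := FreeGroup.reduce.sound h
  rw [reduce_pl, reduce_pl] at this
  exact pl_injective this

theorem result (U V : List (A ⊕ Ω))
    (hquad : ∀ X : Ω, (U ++ V).countP (fun s => decide (s = Sum.inr X)) ≤ 2)
    (L : Ω → Set (FreeGroup A)) (hrat : ∀ X, Rational (L X))
    (hpos : ∀ X, ∀ g ∈ L X, ∃ w : List A, g = posWord w)
    (hinf : {σ | IsSolution U V L σ}.Infinite) :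
    ∀ κ : ℕ, ∃ σ, IsSolution U V L σ ∧ ExpAtLeast σ κ := by
  intro κ
  choose R hR hL using hrat
  choose Q hQf D hD using hR
  let step : ∀ X, Set (Q X) → A → Set (Q X) := fun X S a => detStep (D X) S (a, true)
  let φ := tmor (fun X => Set (Q X)) step
  have hfin : ∀ X, Finite (Set (Q X)) := fun X => by have := hQf X; infer_instance
  have hfold : ∀ X (w : List A), w.foldl (step X) (detStart (D X)) =
      {q | ∃ u, FreeGroup.mk u = posWord w ∧ (D X).evalFrom (D X).start u = q} := by
    intro X w
    rw [posWord_eq, ← benois (D X) (pl w) (reduce_pl w)]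
    simp only [pl, List.foldl_map, step]
  have hmem : ∀ X (w : List A), posWord w ∈ L X ↔
      ∃ q ∈ w.foldl (step X) (detStart (D X)), q ∈ (D X).accept := by
    intro X w
    rw [hL, hfold]
    constructor
    · rintro ⟨u, hu, e⟩
      rw [← hD X] at hu
      exact ⟨_, ⟨u, e, rfl⟩, hu⟩
    · rintro ⟨q, ⟨u, e, rfl⟩, hq⟩
      refine ⟨u, ?_, e⟩
      rw [← hD X]; exact hq
  let S0 : Sys A Ω := fun b => if b then U else V
  let Acc : Set (Ω → TM (fun X => Set (Q X))) :=
    {m | ∀ X, ∃ q ∈ (m X).f X (detStart (D X)), q ∈ (D X).accept}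
  have hacc : ∀ v : Ω → List A, (fun z => φ.f (v z)) ∈ Acc ↔ ∀ X, posWord (v X) ∈ L X := by
    intro v
    constructor
    · intro h X; exact (hmem X _).2 (h X)
    · intro h X; exact (hmem X _).1 (h X)
  have hsol : ∀ v : Ω → List A, Solves v S0 ↔
      ext (fun X => posWord (v X)) (posWord U * (posWord V)⁻¹) = 1 := by
    intro v
    rw [map_mul, map_inv, ext_posWord, ext_posWord, mul_inv_eq_one]
    exact posWord_injective.eq_iff.symm
  obtain ⟨v, h1, h2, X, c, hc, hX⟩ := pump_of_infinite φ S0 (by
    intro z
    have := hquad z
    rw [List.countP_append] at this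
    exact this) Acc (by
    intro hfin
    apply hinf
    refine Set.Finite.subset (hfin.image (fun v X => posWord (v X))) ?_
    rintro σ ⟨hs, hl⟩
    choose v hv using fun X => hpos X _ (hl X)
    have hσ : σ = fun X => posWord (v X) := funext hv
    subst hσ
    exact ⟨v, ⟨(hsol v).2 hs, (hacc v).2 hl⟩, rfl⟩) κ
  refine ⟨fun X => posWord (v X), ⟨(hsol v).1 h1, (hacc v).1 h2⟩, X, pl c, ?_, ?_⟩
  · intro h; exact hc (by simpa [pl] using h)
  · rw [← pl_pw]
    show pl (pw c κ) <:+: (posWord (v X)).toWord
    rw [posWord_eq, FreeGroup.toWord_mk, reduce_pl]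
    obtain ⟨s, t, e⟩ := hX
    exact ⟨pl s, pl t, by rw [← e]; simp [pl]⟩

end Pool.Agent.Results.MP_874169_lc.PositiveConstraints
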