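import Pool.Agent.H860T.Core

/-!
# Rational constraints for two-sided quadratic equations, in the absence of cancellation

`A` is a finite alphabet, `Ω` a finite set of variables, `FreeGroup A` the free group; `U` and `V` are
words over `A ∪ Ω` and the formal inverses.  Every variable occurs at most once in `U` and at most
once in `V`, with arbitrary signs, so that the equation need not be orientable.  The constraints `L X`
are arbitrary rational subsets of the free group.  If `U V⁻¹ = 1` has infinitely many constrained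
solutions `σ` without cancellation in `σ(U)` and in `σ(V)`, then it has constrained solutions of
arbitrarily large exponent of periodicity.
-/

set_option autoImplicit false
set_option linter.unusedSectionVars false

namespace Pool.Agent.Results.MP_874169_lc.TwoSidedNoCancellation

open Pool.Agent.H860Q

/-- The homomorphism `F(A ∪ Ω) → F(A)` that fixes the letters of `A` and sends `X` to `σ X`. -/
def ext {A Ω : Type} (σ : Ω → FreeGroup A) : FreeGroup (A ⊕ Ω) →* FreeGroup A :=
  FreeGroup.lift (Sum.elim FreeGroup.of σ)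

/-- A subset of the free group is rational if it is the set of the elements represented by the words
of a regular language over `A ∪ A⁻¹`; `(a, true)` stands for `a`, `(a, false)` for `a⁻¹`. -/
def Rational {A : Type} (L : Set (FreeGroup A)) : Prop :=
  ∃ R : Language (A × Bool), R.IsRegular ∧ L = {g | ∃ w ∈ R, FreeGroup.mk w = g}

/-- The number of occurrences of `X` (for `e = true`) or of `X⁻¹` (for `e = false`) in `W`. -/
def occurrences {A Ω : Type} [DecidableEq A] [DecidableEq Ω] (W : List ((A ⊕ Ω) × Bool)) (X : Ω)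
    (e : Bool) : ℕ :=
  W.countP (fun s => decide (s = (Sum.inr X, e)))

/-- Every variable occurs at most once in `U` and at most once in `V`, with arbitrary signs. -/
def TwoSided {A Ω : Type} [DecidableEq A] [DecidableEq Ω] (U V : List ((A ⊕ Ω) × Bool)) : Prop :=
  ∀ X, occurrences U X true + occurrences U X false ≤ 1 ∧
    occurrences V X true + occurrences V X false ≤ 1

/-- The word obtained from `U` by substituting for `X` and `X⁻¹` the reduced words of `σ X` and of
its inverse. -/
def subst {A Ω : Type} [DecidableEq A] (σ : Ω → FreeGroup A) (U : List ((A ⊕ Ω) × Bool)) :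
    List (A × Bool) :=
  U.flatMap (fun s => match s with
    | (Sum.inl a, e) => [(a, e)]
    | (Sum.inr X, true) => (σ X).toWord
    | (Sum.inr X, false) => ((σ X)⁻¹).toWord)

/-- There is no cancellation in `σ(U)`: the substituted word is reduced. -/
def NoCancel {A Ω : Type} [DecidableEq A] (σ : Ω → FreeGroup A) (U : List ((A ⊕ Ω) × Bool)) : Prop :=
  FreeGroup.IsReduced (subst σ U)

/-- `σ` is a solution of `U V⁻¹ = 1` that satisfies the constraints `L`. -/
def IsSolution {A Ω : Type} (U V : List ((A ⊕ Ω) × Bool)) (L : Ω → Set (FreeGroup A))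
    (σ : Ω → FreeGroup A) : Prop :=
  ext σ (FreeGroup.mk U * (FreeGroup.mk V)⁻¹) = 1 ∧ ∀ X, σ X ∈ L X

/-- The exponent of periodicity of `σ` is at least `κ`: the power `c^κ` of a nonempty word `c` is a
factor of the reduced word of some `σ X`. -/
def ExpAtLeast {A Ω : Type} [DecidableEq A] (σ : Ω → FreeGroup A) (κ : ℕ) : Prop :=
  ∃ X, ∃ c : List (A × Bool), c ≠ [] ∧ (List.replicate κ c).flatten <:+: (σ X).toWord

variable {A Ω : Type} [Fintype A] [DecidableEq A] [Fintype Ω] [DecidableEq Ω]

/-- the letters of the equation as symbols -/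
def sy : (A ⊕ Ω) × Bool → H860V.Sy A Ω
  | (Sum.inl a, e) => Sum.inl (a, e)
  | (Sum.inr X, e) => Sum.inr (X, e)

theorem sy_eq (s : (A ⊕ Ω) × Bool) (X : Ω) (e : Bool) :
    (sy s : H860V.Sy A Ω) = Sum.inr (X, e) ↔ s = (Sum.inr X, e) := by
  obtain ⟨s, e'⟩ := s
  rcases s with a | X' <;> simp [sy]

theorem occ_sy (W : List ((A ⊕ Ω) × Bool)) (X : Ω) (e : Bool) :
    H860V.occ (Sum.inr (X, e)) (W.map sy) = occurrences W X e := by
  induction W with
  | nil => rfl
  | cons s W ih =>
    rw [List.map_cons, H860V.occ_cons, ih]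
    simp only [occurrences, List.countP_cons, decide_eq_true_eq, sy_eq]

theorem ev_sy (t : Ω → H860V.Wd A) (W : List ((A ⊕ Ω) × Bool)) :
    H860V.ev t (W.map sy) = W.flatMap (H860V.sv t) := by
  induction W with
  | nil => rfl
  | cons s W ih =>
    rw [List.map_cons, H860V.ev_cons, ih, List.flatMap_cons]
    congr 1
    obtain ⟨s, e⟩ := s
    rcases s with a | X
    · rfl
    · cases e <;> rfl

theorem subst_eq (σ : Ω → FreeGroup A) (W : List ((A ⊕ Ω) × Bool)) :
    subst σ W = W.flatMap (H860V.sv (fun X => (σ X).toWord)) := by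
  unfold subst
  congr 1
  funext s
  obtain ⟨s, e⟩ := s
  rcases s with a | X
  · rfl
  · cases e
    · show ((σ X)⁻¹).toWord = FreeGroup.invRev (σ X).toWord
      rw [FreeGroup.toWord_inv]
    · rfl

theorem mk_flatMap (t : Ω → H860V.Wd A) (W : List ((A ⊕ Ω) × Bool)) :
    FreeGroup.mk (W.flatMap (H860V.sv t)) = ext (fun X => FreeGroup.mk (t X)) (FreeGroup.mk W) := by
  show _ = FreeGroup.lift _ _
  rw [H860V.ext_word]
  induction W with
  | nil => rfl
  | cons s W ih =>
    rw [List.flatMap_cons, ← FreeGroup.mul_mk, ih, List.map_cons, List.prod_cons]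

theorem result (U V : List ((A ⊕ Ω) × Bool)) (htwo : TwoSided U V)
    (L : Ω → Set (FreeGroup A)) (hrat : ∀ X, Rational (L X))
    (hinf : {σ | IsSolution U V L σ ∧ NoCancel σ U ∧ NoCancel σ V}.Infinite) :
    ∀ κ : ℕ, ∃ σ, IsSolution U V L σ ∧ ExpAtLeast σ κ := by
  intro κ
  choose R hR hL using hrat
  choose Q hQf D hD using hR
  have hfin : ∀ X, Finite (Set (Q X)) := fun X => by have := hQf X; infer_instance
  let φ := H860V.imor (H860V.Mor.prod (tmor (fun X => Set (Q X)) (fun X => detStep (D X)))
    (tmor (ι := Unit) (fun _ => Option (Option (A × Bool)))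
      (fun u st c => H860V.dst u st (some c.1, c.2))))
  have hmem : ∀ X (w : H860V.Wd A), FreeGroup.IsReduced w → (FreeGroup.mk w ∈ L X ↔
      ∃ q ∈ w.foldl (detStep (D X)) (detStart (D X)), q ∈ (D X).accept) := by
    intro X w hw
    rw [hL, benois (D X) w (FreeGroup.isReduced_iff_reduce_eq.1 hw)]
    constructor
    · rintro ⟨u, hu, e⟩
      rw [← hD X] at hu
      exact ⟨_, ⟨u, e, rfl⟩, hu⟩
    · rintro ⟨q, ⟨u, e, rfl⟩, hq⟩
      refine ⟨u, ?_, e⟩
      rw [← hD X]; exact hq
  let M := TM (fun X => Set (Q X)) × TM (fun _ : Unit => Option (Option (A × Bool)))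
  let Acc : Set (Ω → M × Mᵐᵒᵖ) := {μ | ∀ X, (μ X).1.2.f () (some none) ≠ none ∧
      ∃ q ∈ (μ X).1.1.f X (detStart (D X)), q ∈ (D X).accept}
  have hdst : ∀ w : H860V.Wd A,
      w.foldl (fun st c => H860V.dst () st (some c.1, c.2)) (some none) ≠ none ↔
      FreeGroup.IsReduced w := by
    intro w
    rw [← H860V.dst_fold, H860V.emb, List.foldl_map]
  have hacc : ∀ v : Ω → H860V.Wd A, (fun z => φ.f (v z)) ∈ Acc ↔
      ∀ X, FreeGroup.IsReduced (v X) ∧
        ∃ q ∈ (v X).foldl (detStep (D X)) (detStart (D X)), q ∈ (D X).accept := by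
    intro v
    have h1 : (fun z => φ.f (v z)) ∈ Acc ↔ ∀ X,
        (v X).foldl (fun st c => H860V.dst () st (some c.1, c.2)) (some none) ≠ none ∧
        ∃ q ∈ (v X).foldl (detStep (D X)) (detStart (D X)), q ∈ (D X).accept := Iff.rfl
    rw [h1]
    exact forall_congr' fun X => and_congr_left' (hdst (v X))
  let S0 : H860V.Sys A Ω := fun b => (if b then U else V).map sy
  have hoc : ∀ b X e, H860V.oc S0 b (X, e) = occurrences (if b then U else V) X e :=
    fun b X e => occ_sy _ X e
  have hcnt : ∀ z : Ω × Bool, H860V.cnt S0 z = occurrences U z.1 true + occurrences U z.1 false +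
      (occurrences V z.1 true + occurrences V z.1 false) := by
    rintro ⟨X, e⟩
    have h1 := hoc true X true
    have h2 := hoc true X false
    have h3 := hoc false X true
    have h4 := hoc false X false
    simp only [if_true, Bool.false_eq_true, if_false] at h1 h2 h3 h4
    cases e
    · show H860V.oc S0 true (X, false) + H860V.oc S0 true (X, true) +
        H860V.oc S0 false (X, false) + H860V.oc S0 false (X, true) = _
      rw [h1, h2, h3, h4]; ring
    · show H860V.oc S0 true (X, true) + H860V.oc S0 true (X, false) +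
        H860V.oc S0 false (X, true) + H860V.oc S0 false (X, false) = _
      rw [h1, h2, h3, h4]; ring
  have hq : ∀ z, H860V.cnt S0 z ≤ 2 := by
    intro z
    rw [hcnt]
    have := htwo z.1
    omega
  have hty : H860V.T.K2 S0 ∨ H860V.T.K3 S0 := by
    right
    rintro b ⟨X, e⟩
    have := htwo X
    have h5 : H860V.oc S0 b (X, e) + H860V.oc S0 b (H860V.fl (X, e)) =
        H860V.oc S0 b (X, true) + H860V.oc S0 b (X, false) := by
      cases e
      · exact add_comm _ _
      · rfl
    rw [h5, hoc, hoc]
    cases b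
    · simp only [Bool.false_eq_true, if_false]; exact this.2
    · simp only [if_true]; exact this.1
  have hsolve : ∀ v : Ω → H860V.Wd A, H860V.Solves v S0 ↔
      U.flatMap (H860V.sv v) = V.flatMap (H860V.sv v) := by
    intro v
    show H860V.ev v (U.map sy) = H860V.ev v (V.map sy) ↔ _
    rw [ev_sy, ev_sy]
  have hF1 : Finite (TM (fun X => Set (Q X))) := inferInstance
  have hF2 : Finite (TM (fun _ : Unit => Option (Option (A × Bool)))) := inferInstance
  have hF3 : Finite (TM (fun X => Set (Q X)) ×
    TM (fun _ : Unit => Option (Option (A × Bool)))) := inferInstance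
  have hF4 : Finite (TM (fun X => Set (Q X)) ×
    TM (fun _ : Unit => Option (Option (A × Bool))))ᵐᵒᵖ :=
    Finite.of_equiv _ MulOpposite.opEquiv
  obtain ⟨v, h1, h2, X, c, hc, hX⟩ := H860V.T.pump_of_infinite φ S0 hq hty Acc (by
    intro hfin
    apply hinf
    refine Set.Finite.subset (hfin.image (fun v X => FreeGroup.mk (v X))) ?_
    rintro σ ⟨⟨hs, hl⟩, hU, hV⟩
    refine ⟨fun X => (σ X).toWord, ⟨?_, fun X => FreeGroup.isReduced_toWord, ?_⟩, ?_⟩
    · rw [hsolve]
      unfold NoCancel at hU hV
      rw [subst_eq] at hU hV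
      have hσ : σ = fun X => FreeGroup.mk (σ X).toWord := by
        funext X; rw [FreeGroup.mk_toWord]
      have h3 : FreeGroup.mk (U.flatMap (H860V.sv (fun X => (σ X).toWord))) =
          FreeGroup.mk (V.flatMap (H860V.sv (fun X => (σ X).toWord))) := by
        rw [mk_flatMap, mk_flatMap, ← hσ]
        rw [map_mul, map_inv] at hs
        exact mul_inv_eq_one.1 hs
      have := FreeGroup.reduce.sound h3
      rwa [FreeGroup.isReduced_iff_reduce_eq.1 hU, FreeGroup.isReduced_iff_reduce_eq.1 hV] at this
    · rw [hacc]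
      intro X
      refine ⟨FreeGroup.isReduced_toWord, ?_⟩
      rw [← hmem X _ FreeGroup.isReduced_toWord, FreeGroup.mk_toWord]
      exact hl X
    · funext X
      exact FreeGroup.mk_toWord) κ
  have h2' := (hacc v).1 h2
  refine ⟨fun X => FreeGroup.mk (v X), ⟨?_, fun X => (hmem X _ (h2' X).1).2 (h2' X).2⟩,
    X, c, hc, ?_⟩
  · rw [map_mul, map_inv, ← mk_flatMap, ← mk_flatMap, (hsolve v).1 h1]
    exact mul_inv_cancel _
  · show pw c κ <:+: (FreeGroup.mk (v X)).toWord
    rw [FreeGroup.toWord_mk, FreeGroup.isReduced_iff_reduce_eq.1 (h2' X).1]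
    exact hX

end Pool.Agent.Results.MP_874169_lc.TwoSidedNoCancellation
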